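import Mathlib
import Pool.Agent.Z894.CP.Stm3

/-!
The final theorem of project ND from the main theorem and the combinatorial statement
(adaptation of `Pool.Agent.Y681.MB.Fin`).
-/

set_option autoImplicit false

open MvPolynomial

namespace Pool.Agent.Y555.ND

open Pool.Agent.TH922.KC Pool.Agent.Z894.CP Pool.Agent.Z894.ND

/-- **The final theorem.** -/
theorem nfinal_holds (h1 : Pool.Agent.Z894.ND.NMain) (h2 : Pool.Agent.Z894.ND.NComb) :
    Pool.Agent.Z894.ND.NFinal := by
  intro n r hn0 d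
  classical
  obtain ⟨bad1, hbad1, hmain1⟩ := main n r d
  obtain ⟨bad2, hbad2, hmain2⟩ := h1 n r hn0 d
  refine ⟨fun j => bad1 j * bad2 j, fun j => mul_ne_zero (hbad1 j) (hbad2 j), ?_⟩
  intro f hf hfb I hI hIp hdim hfI Q hQ hQp hdiv
  have hfb1 : ∀ j, MvPolynomial.eval (fun x => MvPolynomial.coeff x.2.1 (f x.1)) (bad1 j) ≠ 0 := by
    intro j h
    apply hfb j
    rw [map_mul, h, zero_mul]
  have hfb2 : ∀ j, MvPolynomial.eval (fun x => MvPolynomial.coeff x.2.1 (f x.1)) (bad2 j) ≠ 0 := by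
    intro j h
    apply hfb j
    rw [map_mul, h, mul_zero]
  refine eventually_dvd Q hQ _ ?_
  intro p s hp hs hps
  have hpQ : p ∣ Q := (dvd_pow_self p hs).trans hps
  have hnp := hQp p hp hpQ
  by_cases hA : ∃ i, p ^ (n * (s + 0)) ∣ d i
  · obtain ⟨i, hi⟩ := hA
    have hcard : 1 ≤ (Finset.univ.filter fun i => p ^ (n * (s + 0)) ∣ d i).card :=
      Finset.card_pos.mpr ⟨i, Finset.mem_filter.mpr ⟨Finset.mem_univ _, hi⟩⟩
    have hj : n ≤ p ^ (0 + 1) - 1 := by
      rw [zero_add, pow_one]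
      omega
    obtain ⟨K, hK⟩ := hmain1 f hf hfb1 I hI hIp hdim hfI p (s + 0) 0 hp
      (hj.trans (Nat.le_mul_of_pos_left _ hcard))
    refine ⟨K, fun k hk => ?_⟩
    have e1 := hK k hk
    rw [pow_zero, Nat.cast_one, one_mul] at e1
    exact e1
  · push Not at hA
    have hd0 : ∀ i, d i ≠ 0 := by
      intro i h
      exact hA i (by rw [h]; exact dvd_zero _)
    have hfac : ∀ S : Finset (Fin r), (∏ i ∈ S, d i).factorization p
        = ∑ i ∈ S, (d i).factorization p := by
      intro S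
      rw [Nat.factorization_prod (fun i _ => hd0 i), Finset.sum_apply']
    have htot : n * s ≤ ∑ i, (d i).factorization p := by
      have e1 : p ^ (s * n) ∣ ∏ i, d i := by
        rw [pow_mul]
        exact (pow_dvd_pow_of_dvd hps _).trans hdiv
      have e2 := (hp.pow_dvd_iff_le_factorization
        (Finset.prod_ne_zero_iff.mpr fun i _ => hd0 i)).mp e1
      rw [hfac] at e2
      rw [mul_comm]
      exact e2
    obtain ⟨H, iF, iD, D, hD, hle⟩ :=
      h2 r n s p (fun i => (d i).factorization p) hp hn0 (Nat.pos_of_ne_zero hs) htot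
    refine hmain2 f hf hfb2 I hI hIp hdim hfI p n s H D hp hs le_rfl hnp hD ?_
    intro i hi
    exact ⟨Nat.pos_of_ne_zero (hd0 i), (hp.pow_dvd_iff_le_factorization (hd0 i)).mpr (hle i hi)⟩

end Pool.Agent.Y555.ND
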